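import Pool.Agent.H41.PS.Stm

/-!
# Project PS (helper41): `S_SW`
-/

set_option autoImplicit false


namespace Pool.Agent.H658.PS

open Pool.Agent.H41.PS

/-- the addition of a bit -/
theorem xor_two_pow (j : ℕ) : ∀ i : ℕ, (i.testBit j = false → i ^^^ 2 ^ j = i + 2 ^ j) ∧
    (i.testBit j = true → (i ^^^ 2 ^ j) + 2 ^ j = i) := by
  induction j with
  | zero =>
    intro i
    have h1 : (i ^^^ 1) / 2 = i / 2 := by rw [Nat.xor_div_two]; simp
    have h2 : (i ^^^ 1) % 2 = (i + 1) % 2 := Nat.xor_mod_two_eq
    constructor
    · intro h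
      rw [Nat.testBit_zero, decide_eq_false_iff_not] at h
      rw [pow_zero]; omega
    · intro h
      rw [Nat.testBit_zero, decide_eq_true_eq] at h
      rw [pow_zero]; omega
  | succ j ih =>
    intro i
    have hp : 2 ^ (j + 1) = 2 * 2 ^ j := by rw [pow_succ]; ring
    have hd : 2 ^ (j + 1) / 2 = 2 ^ j := by omega
    have h1 : (i ^^^ 2 ^ (j + 1)) / 2 = i / 2 ^^^ 2 ^ j := by rw [Nat.xor_div_two, hd]
    have h2 : (i ^^^ 2 ^ (j + 1)) % 2 = (i + 2 ^ (j + 1)) % 2 := Nat.xor_mod_two_eq
    have ih' := ih (i / 2)
    rw [← h1] at ih'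
    constructor
    · intro h
      rw [Nat.testBit_add_one] at h
      have := ih'.1 h
      omega
    · intro h
      rw [Nat.testBit_add_one] at h
      have := ih'.2 h
      omega

theorem high {j n : ℕ} (hj : j < 8) (h1 : 8192 ≤ n + 2 ^ j) (h2 : n < 8192) :
    n.testBit j = true := by
  rw [Nat.testBit_eq_decide_div_mod_eq, decide_eq_true_eq]
  interval_cases j <;> simp only [Nat.reducePow] at * <;> omega

theorem sw_testBit (m s X i : ℕ) : (sw m s X).testBit i =
    ((decide (i ≥ s) && (X.testBit (i - s) && m.testBit (i - s))) ||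
      (X.testBit (s + i) && m.testBit i)) := by
  change (((X &&& m) <<< s) ||| ((X >>> s) &&& m)).testBit i = _
  rw [Nat.testBit_or, Nat.testBit_shiftLeft, Nat.testBit_and, Nat.testBit_and,
    Nat.testBit_shiftRight]

theorem t_SW : S_SW := by
  rintro m s X ⟨j, hj, rfl, -, hmask⟩ hX
  have hp : 0 < 2 ^ j := Nat.two_pow_pos j
  constructor
  · refine Nat.lt_pow_two_of_testBit _ ?_
    intro i hi
    rw [sw_testBit]
    have h2 : X.testBit (2 ^ j + i) = false :=
      Nat.testBit_lt_two_pow (hX.trans_le (Nat.pow_le_pow_right (by norm_num) (by omega)))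
    rw [h2, Bool.false_and, Bool.or_false]
    rw [Bool.and_eq_false_iff]
    by_cases hc : i ≥ 2 ^ j
    · right
      by_cases h3 : 8192 ≤ i - 2 ^ j
      · rw [Nat.testBit_lt_two_pow (hX.trans_le (Nat.pow_le_pow_right (by norm_num) h3)),
          Bool.false_and]
      · rw [hmask _ (by omega), high hj (by omega) (by omega)]
        simp
    · left
      simpa using hc
  · intro i hi
    rw [sw_testBit]
    cases hb : i.testBit j with
    | false =>
      rw [(xor_two_pow j i).1 hb, hmask i hi, hb, add_comm i]
      simp only [Bool.not_false, Bool.and_true]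
      by_cases hc : i ≥ 2 ^ j
      · have hx := Nat.testBit_two_pow_add_eq (i - 2 ^ j) j
        rw [show 2 ^ j + (i - 2 ^ j) = i by omega, hb] at hx
        have hx' : (i - 2 ^ j).testBit j = true := by
          cases h : (i - 2 ^ j).testBit j with
          | false => rw [h] at hx; simp at hx
          | true => rfl
        rw [hmask _ (by omega), hx']
        simp
      · have : decide (i ≥ 2 ^ j) = false := by simpa using hc
        rw [this, Bool.false_and, Bool.false_or]
    | true =>
      have hx := (xor_two_pow j i).2 hb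
      have hc : i ≥ 2 ^ j := by omega
      have he : i - 2 ^ j = i ^^^ 2 ^ j := by omega
      have hx := Nat.testBit_two_pow_add_eq (i - 2 ^ j) j
      rw [show 2 ^ j + (i - 2 ^ j) = i by omega, hb] at hx
      have hx' : (i - 2 ^ j).testBit j = false := by
        cases h : (i - 2 ^ j).testBit j with
        | false => rfl
        | true => rw [h] at hx; simp at hx
      rw [hmask i hi, hb, hmask _ (by omega), hx', he]
      simp [hc]

end Pool.Agent.H658.PS
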